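import Pool.Agent.MWGQ.Stmts

/-!
MWGQ, row CNT: the number of occurrences of a letter.
-/

namespace Pool.Agent.MWGQ.H23

open Pool.Agent.Helper14_MV Pool.Agent.Helper2_MV

theorem fcount (c : ℕ) : ∀ l : List ℕ,
    l.flatMap (fun d => if d = c then [0] else []) = List.replicate (l.count c) 0
  | [] => rfl
  | d :: l => by
    rw [List.flatMap_cons, fcount c l]
    by_cases h : d = c
    · subst h
      simp [List.replicate_succ]
    · simp [h]

/-- **CNT**. -/
theorem cnt : CntStmt := by
  intro n β hG w w' hR c
  have h := hR.sub (fun d => if d = c then [0] else [])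
  rw [fcount, fcount] at h
  refine ⟨fun h1 => hG.e1 _ _ h h1, fun h2 => ?_, hG.en _ _ h⟩
  by_contra hcon
  have h3 := hG.e1 _ _ h.symm (by omega)
  omega

end Pool.Agent.MWGQ.H23
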